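import Pool.Agent.Y727.PSP.Stm

/-!
# Generalised convolutions on `ZMod N`
-/

set_option autoImplicit false

open Finset

namespace Pool.Agent.Y46.PSP

open Pool.Agent.H602R3.DHJ (av av_const av_mono av_nonneg av_add av_sub av_mul av_sum av_equiv
  av_prod av_comm)
open Pool.Agent.Y727.PSP

/-! ## Averages -/

theorem av_tr {G : Type} [AddCommGroup G] [Fintype G] (f : G → ℝ) (t : G) :
    av (fun x => f (x + t)) = av f := av_equiv (Equiv.addRight t) f

theorem abs_av_le {X : Type} [Fintype X] {f g : X → ℝ} (h : ∀ x, |f x| ≤ g x) :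
    |av f| ≤ av g := by
  rw [abs_le]
  constructor
  · have h1 : av (fun x => - g x) ≤ av f := av_mono fun x => (abs_le.1 (h x)).1
    have h2 : av (fun x => - g x) = - av g := by
      have := av_mul (-1) g
      simpa using this
    linarith
  · exact av_mono fun x => (abs_le.1 (h x)).2

/-- averages along a homomorphism with a section -/
theorem av_section {X Y : Type} [Fintype X] [AddCommGroup X] [Fintype Y] [AddCommGroup Y]
    (G : Y → ℝ) (d : X → Y) (s : Y → X) (hd : ∀ h t, d (h + s t) = t + d h) :
    av (fun h : X => G (d h)) = av G := by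
  have h1 : ∀ t : Y, av (fun h : X => G (d (h + s t))) = av (fun h : X => G (d h)) := fun t =>
    av_tr (fun h => G (d h)) (s t)
  have h2 : av (fun h : X => G (d h)) =
      av (fun t : Y => av (fun h : X => G (d (h + s t)))) := by
    rw [show (fun t : Y => av (fun h : X => G (d (h + s t)))) =
      fun _ : Y => av (fun h : X => G (d h)) from funext h1]
    exact (av_const _).symm
  have h3 : ∀ h : X, av (fun t : Y => G (d (h + s t))) = av G := by
    intro h
    rw [show (fun t : Y => G (d (h + s t))) = fun t : Y => G (t + d h) from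
      funext fun t => by rw [hd]]
    exact av_tr G (d h)
  rw [h2, av_comm, show (fun h : X => av (fun t : Y => G (d (h + s t)))) =
    fun _ : X => av G from funext h3]
  exact av_const _

/-- averaging over one coordinate -/
theorem av_update {J V : Type} [Fintype J] [DecidableEq J] [Fintype V] [AddCommGroup V]
    (F : (J → V) → ℝ) (j : J) :
    av F = av (fun t : V => av (fun x : J → V => F (Function.update x j t))) := by
  have h0 : ∀ (x : J → V) (t : V), x + Pi.single j t = Function.update x j (t + x j) := by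
    intro x t
    funext i
    by_cases hi : i = j
    · subst hi
      rw [Pi.add_apply, Pi.single_eq_same, Function.update_self, add_comm]
    · rw [Pi.add_apply, Function.update_of_ne hi, Pi.single_eq_of_ne hi, add_zero]
  have h1 : av F = av (fun t : V => av (fun x : J → V => F (x + Pi.single j t))) := by
    rw [show (fun t : V => av (fun x : J → V => F (x + Pi.single j t))) = fun _ : V => av F from
      funext fun t => av_tr F (Pi.single j t)]
    exact (av_const _).symm
  rw [h1, av_comm, av_comm (fun (t : V) (x : J → V) => F (Function.update x j t))]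
  refine congrArg av (funext fun x => ?_)
  rw [show (fun t : V => F (x + Pi.single j t)) = fun t : V => F (Function.update x j (t + x j))
    from funext fun t => by rw [h0]]
  exact av_tr (fun t : V => F (Function.update x j t)) (x j)

/-! ## The linear form -/

section Lin

variable {r N : ℕ}

theorem Lf_add (j : Fin (r + 1)) (x y : Fin (r + 1) → ZMod N) : Lf j (x + y) = Lf j x + Lf j y := by
  unfold Lf
  rw [← sum_add_distrib]
  exact sum_congr rfl fun i _ => by rw [Pi.add_apply, mul_add]

theorem Lf_single (i₁ : Fin (r + 1)) (h : (i₁ : ℕ) = 1) (t : ZMod N) :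
    Lf (0 : Fin (r + 1)) (Pi.single i₁ t : Fin (r + 1) → ZMod N) = t := by
  unfold Lf
  rw [sum_eq_single i₁]
  · rw [Pi.single_eq_same, h]
    simp
  · intro i _ hi
    rw [Pi.single_eq_of_ne hi, mul_zero]
  · intro h
    exact absurd (mem_univ _) h

variable [NeZero N]

theorem av_Lf (hr : 1 ≤ r) (g : ZMod N → ℝ) :
    av (fun x : Fin (r + 1) → ZMod N => g (Lf 0 x)) = av g := by
  refine av_section g (fun x : Fin (r + 1) → ZMod N => Lf 0 x)
    (fun t => Pi.single (⟨1, by omega⟩ : Fin (r + 1)) t) fun x t => ?_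
  show Lf 0 (x + Pi.single (⟨1, by omega⟩ : Fin (r + 1)) t) = t + Lf 0 x
  rw [Lf_add, Lf_single _ rfl, add_comm]

theorem card_pos' : (0 : ℝ) < N := by
  have : 0 < N := Nat.pos_of_ne_zero (NeZero.ne N)
  exact_mod_cast this

theorem fibre (hr : 1 ≤ r) (a : ZMod N) :
    (N : ℝ) * av (fun x : Fin (r + 1) → ZMod N => if Lf 0 x = a then (1 : ℝ) else 0) = 1 := by
  rw [av_Lf hr (fun b => if b = a then (1 : ℝ) else 0)]
  unfold av
  rw [sum_ite_eq' univ a (fun _ => (1 : ℝ)), if_pos (mem_univ a), ZMod.card]
  have := card_pos' (N := N)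
  field_simp

theorem av_phi (h : ZMod N → ℝ) (F : (Fin (r + 1) → ZMod N) → ℝ) :
    av (fun a => h a * ((N : ℝ) * av (fun x : Fin (r + 1) → ZMod N =>
      if Lf 0 x = a then F x else 0))) = av (fun x => h (Lf 0 x) * F x) := by
  have h1 : ∀ a, h a * ((N : ℝ) * av (fun x : Fin (r + 1) → ZMod N =>
      if Lf 0 x = a then F x else 0)) = av (fun x : Fin (r + 1) → ZMod N =>
        (h a * N) * (if Lf 0 x = a then F x else 0)) := fun a => by rw [av_mul, mul_assoc]
  rw [show (fun a => h a * ((N : ℝ) * av (fun x : Fin (r + 1) → ZMod N =>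
      if Lf 0 x = a then F x else 0))) = fun a => av (fun x : Fin (r + 1) → ZMod N =>
        (h a * N) * (if Lf 0 x = a then F x else 0)) from funext h1, av_comm]
  refine congrArg av (funext fun x => ?_)
  have h2 : ∑ a : ZMod N, (h a * N) * (if Lf 0 x = a then F x else 0) =
      (h (Lf 0 x) * N) * F x := by
    rw [sum_eq_single (Lf 0 x)]
    · rw [if_pos rfl]
    · intro a _ ha
      rw [if_neg (Ne.symm ha), mul_zero]
    · intro h
      exact absurd (mem_univ _) h
  unfold av
  rw [h2, ZMod.card]
  have := card_pos' (N := N)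
  field_simp

end Lin

/-! ## Change of variables -/

section Change

variable {r N : ℕ} [Fact N.Prime] (j : Fin (r + 1))

/-- the multipliers -/
def cm (N : ℕ) [Fact N.Prime] (j i : Fin (r + 1)) : ZMod N :=
  if i = 0 then 1 else ((i : ℕ) : ZMod N) *
    (((Equiv.swap 0 j i : Fin (r + 1)) : ℕ) - ((j : ℕ) : ZMod N))⁻¹

theorem swap_ne {i : Fin (r + 1)} (hi : i ≠ 0) : Equiv.swap 0 j i ≠ j := by
  intro h
  have h1 := Equiv.swap_apply_left (0 : Fin (r + 1)) j
  exact hi ((Equiv.swap 0 j).injective (h.trans h1.symm))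

theorem natCast_sub_ne (hr : r < N) {i l : Fin (r + 1)} (h : i ≠ l) :
    (((i : ℕ) : ZMod N) - ((l : ℕ) : ZMod N)) ≠ 0 := by
  intro h0
  apply h
  have h1 : ((i : ℕ) : ZMod N) = ((l : ℕ) : ZMod N) := sub_eq_zero.1 h0
  rw [ZMod.natCast_eq_natCast_iff'] at h1
  rw [Nat.mod_eq_of_lt (by have := i.2; omega), Nat.mod_eq_of_lt (by have := l.2; omega)] at h1
  exact Fin.ext h1

theorem cm_ne (hr : r < N) (i : Fin (r + 1)) : cm N j i ≠ 0 := by
  unfold cm
  split_ifs with h
  · exact one_ne_zero
  · refine mul_ne_zero ?_ (inv_ne_zero (natCast_sub_ne hr (swap_ne j h)))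
    have := natCast_sub_ne (N := N) hr h
    simpa using this

/-- the change of variables -/
def chg (hr : r < N) : (Fin (r + 1) → ZMod N) ≃ (Fin (r + 1) → ZMod N) where
  toFun x := fun l => cm N j (Equiv.swap 0 j l) * x (Equiv.swap 0 j l)
  invFun y := fun i => (cm N j i)⁻¹ * y (Equiv.swap 0 j i)
  left_inv x := by
    funext i
    show (cm N j i)⁻¹ * (cm N j (Equiv.swap 0 j (Equiv.swap 0 j i)) *
      x (Equiv.swap 0 j (Equiv.swap 0 j i))) = x i
    rw [Equiv.swap_apply_self, ← mul_assoc, inv_mul_cancel₀ (cm_ne j hr i), one_mul]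
  right_inv y := by
    funext l
    show cm N j (Equiv.swap 0 j l) * ((cm N j (Equiv.swap 0 j l))⁻¹ *
      y (Equiv.swap 0 j (Equiv.swap 0 j l))) = y l
    rw [Equiv.swap_apply_self, ← mul_assoc, mul_inv_cancel₀ (cm_ne j hr _), one_mul]

theorem chg_apply (hr : r < N) (x : Fin (r + 1) → ZMod N) (i : Fin (r + 1)) :
    chg j hr x (Equiv.swap 0 j i) = cm N j i * x i := by
  show cm N j (Equiv.swap 0 j (Equiv.swap 0 j i)) * x (Equiv.swap 0 j (Equiv.swap 0 j i)) = _
  rw [Equiv.swap_apply_self]

theorem Lf_chg (hr : r < N) (x : Fin (r + 1) → ZMod N) (t : ZMod N) :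
    Lf j (Function.update (chg j hr x) j t) = Lf 0 x := by
  unfold Lf
  rw [← Equiv.sum_comp (Equiv.swap 0 j)]
  refine sum_congr rfl fun i _ => ?_
  by_cases hi : i = 0
  · subst hi
    rw [Equiv.swap_apply_left]
    simp
  · rw [Function.update_of_ne (swap_ne j hi), chg_apply, ← mul_assoc]
    congr 1
    unfold cm
    rw [if_neg hi, mul_comm, mul_assoc, inv_mul_cancel₀ (natCast_sub_ne hr (swap_ne j hi))]
    simp

theorem chg_update (hr : r < N) (x : Fin (r + 1) → ZMod N) {i : Fin (r + 1)} (hi : i ≠ 0)
    (v t : ZMod N) : Function.update (chg j hr (Function.update x i v)) j t =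
      Function.update (Function.update (chg j hr x) j t) (Equiv.swap 0 j i) (cm N j i * v) := by
  rw [Function.update_comm (swap_ne j hi).symm]
  congr 1
  funext l
  obtain ⟨l, rfl⟩ := (Equiv.swap 0 j).surjective l
  rw [chg_apply]
  by_cases hl : l = i
  · subst hl
    rw [Function.update_self, Function.update_self]
  · rw [Function.update_of_ne hl, Function.update_of_ne (fun h => hl ((Equiv.swap 0 j).injective h)),
      chg_apply]

end Change

theorem cut_of (r N : ℕ) [NeZero N] (hN : N.Prime) (hr : r < N) (h : ZMod N → ℝ) (ε : ℝ)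
    (hcut : Cut (0 : Fin (r + 1)) (fun x => h (Lf 0 x)) ε) (j : Fin (r + 1)) :
    Cut j (fun x => h (Lf j x)) ε := by
  have : Fact N.Prime := ⟨hN⟩
  intro u hu hu1
  rw [av_update _ j]
  have key : ∀ t : ZMod N, |av (fun x : Fin (r + 1) → ZMod N => h (Lf j (Function.update x j t)) *
      ∏ i ∈ univ.erase j, u i (Function.update x j t))| ≤ ε := by
    intro t
    rw [← av_equiv (chg j hr)]
    have h1 := hcut (fun i x => if i = 0 then 1 else
      u (Equiv.swap 0 j i) (Function.update (chg j hr x) j t)) (fun i => ?_) (fun i x => ?_)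
    · refine le_trans (le_of_eq ?_) h1
      congr 1
      refine congrArg av (funext fun x => ?_)
      rw [Lf_chg]
      congr 1
      refine (prod_bij (fun i _ => Equiv.swap 0 j i) (fun i hi => ?_) (fun i _ l _ h =>
        (Equiv.swap 0 j).injective h) (fun l hl => ⟨Equiv.swap 0 j l, ?_, ?_⟩)
        (fun i hi => ?_)).symm
      · exact mem_erase.2 ⟨swap_ne j (mem_erase.1 hi).1, mem_univ _⟩
      · refine mem_erase.2 ⟨fun h => (mem_erase.1 hl).1 ?_, mem_univ _⟩
        rw [← Equiv.swap_apply_self 0 j l, h, Equiv.swap_apply_left]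
      · exact Equiv.swap_apply_self 0 j l
      · rw [if_neg (mem_erase.1 hi).1]
    · intro x v
      by_cases hi : i = 0
      · simp only [if_pos hi]
      · simp only [if_neg hi]
        rw [chg_update j hr x hi]
        exact hu _ _ _
    · by_cases hi : i = 0
      · simp only [if_pos hi, abs_one]
        exact le_rfl
      · simp only [if_neg hi]
        exact hu1 _ _
  refine (abs_av_le (g := fun _ => ε) key).trans (le_of_eq (av_const ε))

theorem phi : Pool.Agent.Y727.PSP.S_PHI := by
  intro r N _ hr1 hN hrN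
  have hmem : ∀ (u : Fin (r + 1) → (Fin (r + 1) → ZMod N) → ℝ), (∀ i, Ind i (u i)) →
      (∀ i x, |u i x| ≤ 1) → (fun a => (N : ℝ) * av (fun x : Fin (r + 1) → ZMod N =>
        if Lf 0 x = a then ∏ i ∈ univ.erase 0, u i x else 0)) ∈ Phi r N :=
    fun u hu hu1 => ⟨u, hu, hu1, fun a => rfl⟩
  have hlast : ∀ (h : ZMod N → ℝ) (ε : ℝ), Cut (0 : Fin (r + 1)) (fun x => h (Lf 0 x)) ε →
      ∀ φ ∈ Phi r N, |av (fun a => h a * φ a)| ≤ ε := by
    rintro h ε hcut φ ⟨u, hu, hu1, hφ⟩
    rw [show φ = fun a => (N : ℝ) * av (fun x : Fin (r + 1) → ZMod N =>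
      if Lf 0 x = a then ∏ i ∈ univ.erase 0, u i x else 0) from funext hφ, av_phi]
    exact hcut u hu hu1
  refine ⟨?_, ?_, ?_, ?_, ?_, hlast⟩
  · rintro φ ⟨u, hu, hu1, hφ⟩ a
    rw [hφ a, abs_mul, abs_of_pos card_pos', ← fibre hr1 a]
    refine mul_le_mul_of_nonneg_left (abs_av_le fun x => ?_) card_pos'.le
    split_ifs
    · rw [abs_prod]
      exact prod_le_one (fun i _ => abs_nonneg _) fun i _ => hu1 i x
    · rw [abs_zero]
  · refine ⟨fun _ _ => 1, fun i x v => rfl, fun i x => by rw [abs_one], fun a => ?_⟩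
    simp only [prod_const_one]
    exact (fibre hr1 a).symm
  · rintro φ ⟨u, hu, hu1, hφ⟩
    have h1 : (⟨1, by omega⟩ : Fin (r + 1)) ∈ univ.erase (0 : Fin (r + 1)) :=
      mem_erase.2 ⟨fun h => by simpa using congrArg Fin.val h, mem_univ _⟩
    refine ⟨Function.update u ⟨1, by omega⟩ (fun x => - u ⟨1, by omega⟩ x), fun i x v => ?_,
      fun i x => ?_, fun a => ?_⟩
    · by_cases hi : i = ⟨1, by omega⟩
      · subst hi
        rw [Function.update_self, hu]
      · rw [Function.update_of_ne hi, hu]
    · by_cases hi : i = ⟨1, by omega⟩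
      · subst hi
        rw [Function.update_self, abs_neg]
        exact hu1 _ _
      · rw [Function.update_of_ne hi]
        exact hu1 _ _
    · rw [Pi.neg_apply, hφ a, ← mul_neg]
      congr 1
      have h2 : ∀ x : Fin (r + 1) → ZMod N, (if Lf 0 x = a then ∏ i ∈ univ.erase 0,
          Function.update u ⟨1, by omega⟩ (fun x => - u ⟨1, by omega⟩ x) i x else 0) =
          -1 * (if Lf 0 x = a then ∏ i ∈ univ.erase 0, u i x else 0) := by
        intro x
        split_ifs
        · rw [← mul_prod_erase _ _ h1, ← mul_prod_erase _ (fun i => u i x) h1,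
            Function.update_self]
          rw [show ∏ i ∈ (univ.erase (0 : Fin (r + 1))).erase ⟨1, by omega⟩,
            Function.update u ⟨1, by omega⟩ (fun x => - u ⟨1, by omega⟩ x) i x =
            ∏ i ∈ (univ.erase (0 : Fin (r + 1))).erase ⟨1, by omega⟩, u i x from
            prod_congr rfl fun i hi => by rw [Function.update_of_ne (mem_erase.1 hi).1]]
          ring
        · rw [mul_zero]
      rw [show (fun x : Fin (r + 1) → ZMod N => if Lf 0 x = a then ∏ i ∈ univ.erase 0,
          Function.update u ⟨1, by omega⟩ (fun x => - u ⟨1, by omega⟩ x) i x else 0) =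
          fun x => -1 * (if Lf 0 x = a then ∏ i ∈ univ.erase 0, u i x else 0) from funext h2,
        av_mul]
      ring
  · rintro φ ⟨u, hu, hu1, hφ⟩ ψ ⟨u', hu', hu1', hψ⟩
    let c : ℝ := Fintype.card (Fin (r + 1) → ZMod N)
    have hc : 0 < c := by
      have h0 : 0 < Fintype.card (Fin (r + 1) → ZMod N) := Fintype.card_pos
      show (0 : ℝ) < (Fintype.card (Fin (r + 1) → ZMod N) : ℝ)
      exact_mod_cast h0
    let w : (Fin (r + 1) → ZMod N) → ℝ := fun z => (N : ℝ) * ((if Lf 0 z = 0 then 1 else 0) / c)
    let Z : (Fin (r + 1) → ZMod N) → (ZMod N → ℝ) := fun z a =>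
      (N : ℝ) * av (fun x : Fin (r + 1) → ZMod N =>
        if Lf 0 x = a then ∏ i ∈ univ.erase 0, (u i x * u' i (z + x)) else 0)
    have hZ : ∀ z, Z z ∈ Phi r N := by
      intro z
      refine hmem (fun i x => u i x * u' i (z + x)) (fun i x v => ?_) (fun i x => ?_)
      · have e1 : z + Function.update x i v = Function.update (z + x) i (z i + v) := by
          funext l
          by_cases hl : l = i
          · subst hl
            rw [Pi.add_apply, Function.update_self, Function.update_self]
          · rw [Pi.add_apply, Function.update_of_ne hl, Function.update_of_ne hl, Pi.add_apply]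
        show u i (Function.update x i v) * u' i (z + Function.update x i v) = _
        rw [e1, hu, hu']
      · rw [abs_mul]
        exact mul_le_one₀ (hu1 i x) (abs_nonneg _) (hu1' i _)
    have hw0 : ∀ z ∈ (univ : Finset (Fin (r + 1) → ZMod N)), 0 ≤ w z := by
      intro z _
      refine mul_nonneg card_pos'.le (div_nonneg ?_ hc.le)
      split_ifs <;> norm_num
    have hw1 : ∑ z, w z = 1 := by
      rw [← mul_sum, ← sum_div]
      exact fibre hr1 0
    have hsum : φ * ψ = ∑ z, w z • Z z := by
      funext a
      rw [Pi.mul_apply, hφ a, hψ a, Finset.sum_apply]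
      have e1 : ∀ x : Fin (r + 1) → ZMod N,
          av (fun y : Fin (r + 1) → ZMod N =>
            if Lf 0 y = a then ∏ i ∈ univ.erase 0, u' i y else 0) =
          av (fun z : Fin (r + 1) → ZMod N =>
            if Lf 0 (z + x) = a then ∏ i ∈ univ.erase 0, u' i (z + x) else 0) := fun x =>
        (av_tr (fun y : Fin (r + 1) → ZMod N =>
            if Lf 0 y = a then ∏ i ∈ univ.erase 0, u' i y else 0) x).symm
      have e2 : ∀ x : Fin (r + 1) → ZMod N,
          (if Lf 0 x = a then ∏ i ∈ univ.erase 0, u i x else 0) *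
            av (fun y : Fin (r + 1) → ZMod N =>
              if Lf 0 y = a then ∏ i ∈ univ.erase 0, u' i y else 0) =
          av (fun z : Fin (r + 1) → ZMod N => (if Lf 0 z = 0 then 1 else 0) *
            (if Lf 0 x = a then ∏ i ∈ univ.erase 0, (u i x * u' i (z + x)) else 0)) := by
        intro x
        rw [e1 x, ← av_mul]
        refine congrArg av (funext fun z => ?_)
        rw [Lf_add]
        by_cases hx : Lf 0 x = a
        · by_cases hz : Lf 0 z = 0
          · rw [if_pos hx, if_pos (by rw [hz, hx, zero_add]), if_pos hz, if_pos hx, one_mul,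
              prod_mul_distrib]
          · have e3 : ¬ (Lf 0 z + Lf 0 x = a) := fun h => hz (by
              rw [hx] at h
              exact add_eq_right.1 h)
            rw [if_neg hz, zero_mul, if_neg e3, mul_zero]
        · rw [if_neg hx, if_neg hx, zero_mul, mul_zero]
      calc (N : ℝ) * av (fun x : Fin (r + 1) → ZMod N =>
            if Lf 0 x = a then ∏ i ∈ univ.erase 0, u i x else 0) *
          ((N : ℝ) * av (fun y : Fin (r + 1) → ZMod N =>
            if Lf 0 y = a then ∏ i ∈ univ.erase 0, u' i y else 0))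
          = N * N * (av (fun y : Fin (r + 1) → ZMod N =>
            if Lf 0 y = a then ∏ i ∈ univ.erase 0, u' i y else 0) *
            av (fun x : Fin (r + 1) → ZMod N =>
            if Lf 0 x = a then ∏ i ∈ univ.erase 0, u i x else 0)) := by ring
        _ = N * N * av (fun x : Fin (r + 1) → ZMod N => av (fun z : Fin (r + 1) → ZMod N =>
            (if Lf 0 z = 0 then 1 else 0) *
            (if Lf 0 x = a then ∏ i ∈ univ.erase 0, (u i x * u' i (z + x)) else 0))) := by
          rw [← av_mul]
          congr 1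
          refine congrArg av (funext fun x => ?_)
          rw [mul_comm, e2]
        _ = N * N * av (fun z : Fin (r + 1) → ZMod N => (if Lf 0 z = 0 then 1 else 0) *
            av (fun x : Fin (r + 1) → ZMod N =>
            (if Lf 0 x = a then ∏ i ∈ univ.erase 0, (u i x * u' i (z + x)) else 0))) := by
          rw [av_comm]
          congr 1
          exact congrArg av (funext fun z => av_mul _ _)
        _ = ∑ z, (w z • Z z) a := by
          unfold av
          rw [mul_div_assoc', mul_sum, sum_div]
          refine sum_congr rfl fun z _ => ?_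
          simp only [w, Z, Pi.smul_apply, smul_eq_mul, av]
          ring
    rw [hsum]
    exact (convex_convexHull ℝ (Phi r N)).sum_mem hw0 hw1 fun z _ =>
      subset_convexHull ℝ _ (hZ z)
  · intro h ε hφ j
    refine cut_of r N hN hrN h ε ?_ j
    intro u hu hu1
    have h1 := hφ _ (hmem u hu hu1)
    rwa [av_phi] at h1

end Pool.Agent.Y46.PSP
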