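import Pool.Agent.Y727.PSP.Stm
import Pool.Agent.H602R3.DHJ.Main

/-!
# Szemerédi's theorem in `ZMod N` in the form of Varnavides, from density Hales-Jewett
-/

set_option autoImplicit false

open Finset

namespace Pool.Agent.Y46.PSP

open Pool.Agent.H602R3.DHJ

theorem av_addRight {G : Type} [AddCommGroup G] [Fintype G] (f : G → ℝ) (t : G) :
    av (fun x => f (x + t)) = av f := av_equiv (Equiv.addRight t) f

/-- averages along a homomorphism which moves with one coordinate -/
theorem av_hom {X Y : Type} [Fintype X] [AddCommGroup X] [Fintype Y] [AddCommGroup Y]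
    (G : Y → ℝ) (d : X → Y) (s : Y → X) (hd : ∀ h t, d (h + s t) = t + d h) :
    av (fun h : X => G (d h)) = av G := by
  have h1 : ∀ t : Y, av (fun h : X => G (d (h + s t))) = av (fun h : X => G (d h)) := fun t =>
    av_addRight (fun h => G (d h)) (s t)
  have h2 : av (fun h : X => G (d h)) =
      av (fun t : Y => av (fun h : X => G (d (h + s t)))) := by
    rw [show (fun t : Y => av (fun h : X => G (d (h + s t)))) =
      fun _ : Y => av (fun h : X => G (d h)) from funext h1]
    exact (av_const _).symm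
  have h3 : ∀ h : X, av (fun t : Y => G (d (h + s t))) = av G := by
    intro h
    rw [show (fun t : Y => G (d (h + s t))) = fun t : Y => G (t + d h) from
      funext fun t => by rw [hd]]
    exact av_addRight G (d h)
  rw [h2, av_comm, show (fun h : X => av (fun t : Y => G (d (h + s t)))) =
    fun _ : X => av G from funext h3]
  exact av_const _

theorem var_set (q : ℕ) (δ : ℝ) (hδ : 0 < δ) : ∃ c : ℝ, 0 < c ∧ ∀ (N : ℕ) [NeZero N]
    (A : Set (ZMod N)), δ ≤ dn A → c ≤ av (fun p : ZMod N × ZMod N =>
      ∏ a : Fin (q + 1), A.indicator (fun _ => (1 : ℝ)) (p.1 + ((a : ℕ) : ZMod N) * p.2)) := by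
  classical
  obtain ⟨r, hr⟩ := dhj q (δ / 2) (by positivity)
  obtain ⟨T, hT⟩ : ∃ T : ℕ, T = Fintype.card (Fin r → Fin (q + 1) ⊕ Unit) := ⟨_, rfl⟩
  have hT0 : 0 < T := by
    rw [hT]
    exact Fintype.card_pos
  have hT0' : (0 : ℝ) < T := by exact_mod_cast hT0
  refine ⟨δ / 2 / T, by positivity, fun N _ A hA => ?_⟩
  set I : ZMod N → ℝ := A.indicator (fun _ => (1 : ℝ)) with hI
  have hI0 : ∀ x, 0 ≤ I x := fun x => Set.indicator_nonneg (fun _ _ => zero_le_one) x
  let cs : Fin (q + 1) → ZMod N := fun b => ((b : ℕ) : ZMod N)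
  let W : (Fin r → ZMod N) × ZMod N → Set (Fin r → Fin (q + 1)) :=
    fun z => {u | z.2 + ∑ i, cs (u i) * z.1 i ∈ A}
  have hW : ∀ z, dn (W z) =
      av (fun u : Fin r → Fin (q + 1) => I (z.2 + ∑ i, cs (u i) * z.1 i)) := fun z => rfl
  have h1 : av (fun z => dn (W z)) = dn A := by
    rw [show (fun z => dn (W z)) =
      fun z => av (fun u : Fin r → Fin (q + 1) => I (z.2 + ∑ i, cs (u i) * z.1 i)) from
      funext hW, av_comm]
    have h2 : ∀ u : Fin r → Fin (q + 1), av (fun z : (Fin r → ZMod N) × ZMod N =>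
        I (z.2 + ∑ i, cs (u i) * z.1 i)) = av I := by
      intro u
      rw [av_prod]
      have h3 : ∀ h : Fin r → ZMod N, av (fun x : ZMod N => I (x + ∑ i, cs (u i) * h i)) = av I :=
        fun h => av_addRight I _
      rw [show (fun h : Fin r → ZMod N => av (fun x : ZMod N => I (x + ∑ i, cs (u i) * h i))) =
        fun _ => av I from funext h3]
      exact av_const _
    rw [show (fun u : Fin r → Fin (q + 1) => av (fun z : (Fin r → ZMod N) × ZMod N =>
        I (z.2 + ∑ i, cs (u i) * z.1 i))) = fun _ => av I from funext h2]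
    exact av_const _
  have h2 : δ / 2 ≤ dn {z | δ / 2 ≤ dn (W z)} :=
    dn_large _ (fun z => dn_le_one _) (by rw [h1]; linarith) (by linarith)
  let G : ZMod N → ℝ := fun d => av (fun x : ZMod N => ∏ a : Fin (q + 1), I (x + cs a * d))
  have hG0 : 0 ≤ av G := av_nonneg fun d => av_nonneg fun x => prod_nonneg fun a _ => hI0 _
  have h3 : ∀ V : Fin r → Fin (q + 1) ⊕ Unit, Pr V →
      av (fun z : (Fin r → ZMod N) × ZMod N =>
        ∏ a, I (z.2 + ∑ i, cs (ap V (fun _ => a) i) * z.1 i)) = av G := by
    intro V hV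
    obtain ⟨i₀, hi₀⟩ := hV ()
    let s : (Fin r → ZMod N) → ZMod N := fun h =>
      ∑ i, Sum.elim (fun b => cs b * h i) (fun _ => 0) (V i)
    let d : (Fin r → ZMod N) → ZMod N := fun h =>
      ∑ i, Sum.elim (fun _ => 0) (fun _ => h i) (V i)
    have hsd : ∀ (h : Fin r → ZMod N) (a : Fin (q + 1)),
        ∑ i, cs (ap V (fun _ => a) i) * h i = s h + cs a * d h := by
      intro h a
      simp only [s, d]
      rw [mul_sum, ← sum_add_distrib]
      refine sum_congr rfl fun i _ => ?_
      unfold ap
      rcases V i with b | u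
      · simp
      · simp
    have hd : ∀ (h : Fin r → ZMod N) (t : ZMod N), d (h + Pi.single i₀ t) = t + d h := by
      intro h t
      simp only [d]
      have e1 : t = ∑ i, Sum.elim (fun _ => 0) (fun _ => (Pi.single i₀ t : Fin r → ZMod N) i)
          (V i) := by
        rw [sum_eq_single i₀]
        · rw [hi₀]
          simp
        · intro i _ hi
          rcases V i with b | u
          · rfl
          · simp only [Sum.elim_inr]
            exact Pi.single_eq_of_ne (M := fun _ : Fin r => ZMod N) hi t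
        · intro h
          exact absurd (mem_univ _) h
      conv_rhs => rw [e1]
      rw [← sum_add_distrib]
      refine sum_congr rfl fun i _ => ?_
      rcases V i with b | u
      · simp
      · simp only [Sum.elim_inr, Pi.add_apply]
        exact add_comm _ _
    calc av (fun z : (Fin r → ZMod N) × ZMod N =>
        ∏ a, I (z.2 + ∑ i, cs (ap V (fun _ => a) i) * z.1 i))
        = av (fun h : Fin r → ZMod N => G (d h)) := by
          rw [av_prod]
          refine congrArg av (funext fun h => ?_)
          refine Eq.trans (congrArg av (funext fun x => ?_))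
            (av_addRight (fun x : ZMod N => ∏ a : Fin (q + 1), I (x + cs a * d h)) (s h))
          refine prod_congr rfl fun a _ => ?_
          show I (x + ∑ i, cs (ap V (fun _ => a) i) * h i) = I (x + s h + cs a * d h)
          rw [hsd, add_assoc]
      _ = av G := av_hom G d (fun t => Pi.single i₀ t) hd
  -- the union bound
  have h4 : ∀ z, Set.indicator {z | δ / 2 ≤ dn (W z)} (fun _ => (1 : ℝ)) z ≤
      ∑ V : Fin r → Fin (q + 1) ⊕ Unit, if Pr V then
        ∏ a, I (z.2 + ∑ i, cs (ap V (fun _ => a) i) * z.1 i) else 0 := by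
    intro z
    have h0 : ∀ V ∈ (univ : Finset (Fin r → Fin (q + 1) ⊕ Unit)), 0 ≤ if Pr V then
        ∏ a, I (z.2 + ∑ i, cs (ap V (fun _ => a) i) * z.1 i) else 0 := by
      intro V _
      split_ifs
      · exact prod_nonneg fun a _ => hI0 _
      · exact le_rfl
    by_cases hz : δ / 2 ≤ dn (W z)
    · rw [Set.indicator_of_mem (by exact hz)]
      have h5 : ∃ V : Fin r → Fin (q + 1) ⊕ Unit, Pr V ∧ ∀ a, ap V (fun _ => a) ∈ W z := by
        by_contra hcon
        push Not at hcon
        exact absurd hz (not_le.2 (hr (W z) hcon))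
      obtain ⟨V, hV, hVW⟩ := h5
      refine le_trans ?_ (single_le_sum h0 (mem_univ V))
      rw [if_pos hV]
      refine le_of_eq (Eq.symm (prod_eq_one fun a _ => ?_))
      exact Set.indicator_of_mem (show z.2 + ∑ i, cs (ap V (fun _ => a) i) * z.1 i ∈ A from
        hVW a) _
    · rw [Set.indicator_of_notMem (by exact hz)]
      exact sum_nonneg h0
  have h5 : δ / 2 ≤ T * av G := by
    refine h2.trans ?_
    unfold dn
    refine (av_mono h4).trans ?_
    rw [av_sum]
    calc _ ≤ ∑ V : Fin r → Fin (q + 1) ⊕ Unit, av G := by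
          refine sum_le_sum fun V _ => ?_
          by_cases hV : Pr V
          · simp only [if_pos hV]
            exact (h3 V hV).le
          · simp only [if_neg hV]
            rw [av_const]
            exact hG0
      _ = T * av G := by
          rw [sum_const, card_univ, nsmul_eq_mul, ← hT]
  have h6 : av (fun p : ZMod N × ZMod N => ∏ a : Fin (q + 1), I (p.1 + ((a : ℕ) : ZMod N) * p.2)) =
      av G := by
    rw [av_prod, av_comm]
  rw [h6, div_le_iff₀' hT0']
  exact h5

theorem var : Pool.Agent.Y727.PSP.S_VAR := by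
  classical
  intro k δ hδ
  rcases k with _ | q
  · refine ⟨1, one_pos, fun N _ f _ _ => ?_⟩
    simp only [range_zero, prod_empty]
    rw [av_const]
  obtain ⟨c, hc, h⟩ := var_set q (δ / 2) (by positivity)
  refine ⟨(δ / 2) ^ (q + 1) * c, by positivity, fun N _ f hf hδf => ?_⟩
  have hA : δ / 2 ≤ dn {a | δ / 2 ≤ f a} :=
    dn_large f (fun x => (hf x).2) (by linarith) (by linarith)
  have h1 := h N _ hA
  have h2 := mul_le_mul_of_nonneg_left h1 (show 0 ≤ (δ / 2) ^ (q + 1) by positivity)
  refine h2.trans ?_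
  rw [← av_mul]
  refine av_mono fun p => ?_
  rw [prod_range]
  by_cases hp : ∀ a : Fin (q + 1), δ / 2 ≤ f (p.1 + ((a : ℕ) : ZMod N) * p.2)
  · have e1 : ∏ a : Fin (q + 1), Set.indicator {a | δ / 2 ≤ f a} (fun _ => (1 : ℝ))
        (p.1 + ((a : ℕ) : ZMod N) * p.2) = 1 :=
      prod_eq_one fun a _ => Set.indicator_of_mem
        (show p.1 + ((a : ℕ) : ZMod N) * p.2 ∈ {a | δ / 2 ≤ f a} from hp a) _
    rw [e1, mul_one]
    calc (δ / 2) ^ (q + 1) = ∏ _a : Fin (q + 1), (δ / 2) := by
          rw [prod_const, card_univ, Fintype.card_fin]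
      _ ≤ _ := prod_le_prod (fun _ _ => by positivity) fun a _ => hp a
  · push Not at hp
    obtain ⟨a, ha⟩ := hp
    have e1 : ∏ a : Fin (q + 1), Set.indicator {a | δ / 2 ≤ f a} (fun _ => (1 : ℝ))
        (p.1 + ((a : ℕ) : ZMod N) * p.2) = 0 :=
      prod_eq_zero (mem_univ a) (Set.indicator_of_notMem
        (show p.1 + ((a : ℕ) : ZMod N) * p.2 ∉ {a | δ / 2 ≤ f a} from not_le.2 ha) _)
    rw [e1, mul_zero]
    exact prod_nonneg fun a _ => (hf _).1

end Pool.Agent.Y46.PSP
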